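import Pool.Agent.H815.QC.Stm3

/-! # QC FIN: the frozen statement from `S_NC`, `S_QI`, `S_E1`, `S_E2` -/

set_option autoImplicit false

namespace Pool.Agent.H169.QC

open Pool.Agent.H815.QC

theorem vir_map {G P : Type} [Group G] [Group P] (e : G ≃* P) (H : Subgroup G) (hH : H.index ≠ 0) :
    Vir (e.toMonoidHom.comp H.subtype) := by
  refine ⟨e.injective.comp H.subtype_injective, ⟨?_⟩⟩
  rw [MonoidHom.range_comp, Subgroup.range_subtype]
  have h : (H.map e.toMonoidHom).index = H.index := Subgroup.index_map_equiv H e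
  rw [h]
  exact hH

theorem vir_comp {K L P : Type} [Group K] [Group L] [Group P] (α : L →* P) (e : K ≃* L) (hα : Vir α) :
    Vir (α.comp e.toMonoidHom) := by
  refine ⟨hα.1.comp e.injective, ?_⟩
  have h : (α.comp e.toMonoidHom).range = α.range := by
    ext x
    constructor
    · rintro ⟨y, rfl⟩
      exact ⟨e y, rfl⟩
    · rintro ⟨y, rfl⟩
      exact ⟨e.symm y, congrArg α (e.apply_symm_apply y)⟩
  rw [h]
  exact hα.2

theorem FIN_proof : Pool.Agent.H815.QC.S_FIN := by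
  intro hNC hQI hE1 hE2
  refine ⟨5 * 3, ΓF, ?_, hQI⟩
  rintro m Λ ⟨H₁, H₂, h1, h2, ⟨e⟩⟩
  obtain ⟨e1⟩ := hE1 (5 * 3) ΓF V1 Γ1 finProdFinEquiv.symm (fun _ _ => Iff.rfl)
  obtain ⟨e2⟩ := hE2 m Λ
  exact hNC H₁ (Fin m) Λ (e1.toMonoidHom.comp H₁.subtype)
    ((e2.toMonoidHom.comp H₂.subtype).comp e.toMonoidHom) (vir_map e1 H₁ h1)
    (vir_comp _ e (vir_map e2 H₂ h2))

end Pool.Agent.H169.QC
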